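import Mathlib

/-!
# Torus and shift acting on the polynomial ring in variables indexed by `ℤ`
-/

set_option autoImplicit false

namespace Pool.Agent.Q11.GS

open MvPolynomial

/-- The polynomial ring. -/
abbrev P : Type := MvPolynomial ℤ ℚ

/-- The torus. -/
abbrev T : Type := ℤ → ℚˣ

/-- The torus acting on polynomials. -/
noncomputable def torHom (c : T) : P →ₐ[ℚ] P :=
  aeval fun i => C (c i : ℚ) * X i

@[simp] lemma torHom_X (c : T) (i : ℤ) : torHom c (X i) = C (c i : ℚ) * X i := by
  simp [torHom]

@[simp] lemma torHom_C (c : T) (r : ℚ) : torHom c (C r) = C r := by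
  simp [torHom, algebraMap_eq]

lemma torHom_mul (c d : T) (p : P) : torHom (c * d) p = torHom c (torHom d p) := by
  have : torHom (c * d) = (torHom c).comp (torHom d) := by
    ext i
    simp [mul_assoc, mul_left_comm]
  rw [this]; rfl

lemma torHom_one (p : P) : torHom 1 p = p := by
  have : torHom 1 = AlgHom.id ℚ P := by
    ext i
    simp
  rw [this]; rfl

/-- The torus acting on polynomials, as ring automorphisms. -/
noncomputable def tor : T →* (P ≃+* P) where
  toFun c := RingEquiv.ofRingHom (torHom c : P →+* P) (torHom c⁻¹ : P →+* P)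
    (RingHom.ext fun p => by
      change torHom c (torHom c⁻¹ p) = p
      rw [← torHom_mul, mul_inv_cancel, torHom_one])
    (RingHom.ext fun p => by
      change torHom c⁻¹ (torHom c p) = p
      rw [← torHom_mul, inv_mul_cancel, torHom_one])
  map_one' := by
    ext1 p
    simpa using torHom_one p
  map_mul' c d := by
    ext1 p
    simpa using torHom_mul c d p

lemma tor_apply (c : T) (p : P) : tor c p = torHom c p := rfl

/-- The shift. -/
noncomputable def shHom (t : ℤ) : P →ₐ[ℚ] P := rename (fun i => i + t)

@[simp] lemma shHom_X (t i : ℤ) : shHom t (X i) = X (i + t) := by simp [shHom]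

@[simp] lemma shHom_C (t : ℤ) (r : ℚ) : shHom t (C r) = C r := by simp [shHom]

lemma shHom_add (s t : ℤ) (p : P) : shHom (s + t) p = shHom s (shHom t p) := by
  have : shHom (s + t) = (shHom s).comp (shHom t) := by
    ext i
    simp [add_assoc, add_comm s t]
  rw [this]; rfl

lemma shHom_zero (p : P) : shHom 0 p = p := by
  have : shHom 0 = AlgHom.id ℚ P := by
    ext i
    simp
  rw [this]; rfl

/-- The shift, as ring automorphisms. -/
noncomputable def sh : Multiplicative ℤ →* (P ≃+* P) where
  toFun t := RingEquiv.ofRingHom (shHom t.toAdd : P →+* P) (shHom (-t.toAdd) : P →+* P)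
    (RingHom.ext fun p => by
      change shHom t.toAdd (shHom (-t.toAdd) p) = p
      rw [← shHom_add, add_neg_cancel, shHom_zero])
    (RingHom.ext fun p => by
      change shHom (-t.toAdd) (shHom t.toAdd p) = p
      rw [← shHom_add, neg_add_cancel, shHom_zero])
  map_one' := by
    ext1 p
    simpa using shHom_zero p
  map_mul' s t := by
    ext1 p
    simpa using shHom_add s.toAdd t.toAdd p

lemma sh_apply (t : Multiplicative ℤ) (p : P) : sh t p = shHom t.toAdd p := rfl

/-- Evaluation of the `i`-th variable at zero. -/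
noncomputable def ev (i : ℤ) : P →ₐ[ℚ] P := aeval fun j => if j = i then 0 else X j

lemma ev_X (i j : ℤ) : ev i (X j) = if j = i then 0 else X j := by simp [ev]

@[simp] lemma ev_X_self (i : ℤ) : ev i (X i) = 0 := by simp [ev]

@[simp] lemma ev_C (i : ℤ) (r : ℚ) : ev i (C r) = C r := by simp [ev, algebraMap_eq]

lemma ev_tor (i : ℤ) (c : T) (p : P) : ev i (torHom c p) = torHom c (ev i p) := by
  have : (ev i).comp (torHom c) = (torHom c).comp (ev i) := by
    ext1 j
    by_cases h : j = i
    · simp [h]
    · simp [ev_X, h]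
  exact DFunLike.congr_fun this p

lemma ev_sh (i t : ℤ) (p : P) : ev (i + t) (shHom t p) = shHom t (ev i p) := by
  have : (ev (i + t)).comp (shHom t) = (shHom t).comp (ev i) := by
    ext1 j
    by_cases h : j = i
    · simp [h]
    · simp [ev_X, h]
  exact DFunLike.congr_fun this p

/-- The one-parameter subgroup scaling `X j` by two. -/
def two (j : ℤ) : T := Pi.mulSingle j (Units.mk0 2 (by norm_num))

lemma ev_two (j : ℤ) (p : P) : ev j (torHom (two j) p) = ev j p := by
  have : (ev j).comp (torHom (two j)) = ev j := by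
    ext1 i
    by_cases h : i = j
    · simp [h]
    · simp [two, h]
  exact DFunLike.congr_fun this p

lemma sub_ev_dvd (j : ℤ) (p : P) : X j ∣ p - ev j p := by
  induction p using MvPolynomial.induction_on with
  | C a => simp
  | add p q hp hq =>
    rw [map_add]
    have := dvd_add hp hq
    convert this using 1
    ring
  | mul_X p i hp =>
    rw [map_mul, ev_X]
    split_ifs with h
    · subst h
      simp
    · have := Dvd.dvd.mul_right hp (X i)
      convert this using 1
      ring

lemma dvd_of_ev (j : ℤ) (p : P) (h : ev j p = 0) : X j ∣ p := by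
  have := sub_ev_dvd j p
  rwa [h, sub_zero] at this

lemma exists_factor (j : ℤ) (p : P) (hp : p ≠ 0) :
    ∃ (v : ℕ) (p' : P), p = X j ^ v * p' ∧ ev j p' ≠ 0 := by
  have hfin : FiniteMultiplicity (X j : P) p := by
    refine FiniteMultiplicity.of_not_isUnit ?_ hp
    intro hu
    have := hu.map (ev j)
    simp at this
  obtain ⟨p', hp', hnd⟩ := hfin.exists_eq_pow_mul_and_not_dvd
  exact ⟨_, p', hp', fun h => hnd (dvd_of_ev j p' h)⟩

lemma coeff_tor (c : T) (p : P) (κ : ℤ →₀ ℕ) :
    coeff κ (torHom c p) = coeff κ p * κ.prod fun i m => (c i : ℚ) ^ m := by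
  induction p using MvPolynomial.induction_on' with
  | monomial s a =>
    have h : torHom c (monomial s a) = monomial s (a * s.prod fun i m => (c i : ℚ) ^ m) := by
      rw [torHom, aeval_monomial]
      simp only [mul_pow, Finsupp.prod_mul]
      rw [monomial_eq (s := s)]
      rw [algebraMap_eq, C_mul]
      simp only [Finsupp.prod, map_prod, map_pow]
      rw [mul_assoc]
    rw [h, coeff_monomial, coeff_monomial]
    split_ifs with hs
    · rw [hs]
    · simp
  | add p q hp hq =>
    rw [map_add, coeff_add, hp, hq, coeff_add, add_mul]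

lemma coeff_two (j : ℤ) (p : P) (κ : ℤ →₀ ℕ) :
    coeff κ (torHom (two j) p) = coeff κ p * 2 ^ (κ j) := by
  rw [coeff_tor]
  congr 1
  rw [Finsupp.prod]
  by_cases h : j ∈ κ.support
  · rw [Finset.prod_eq_single j]
    · simp [two]
    · intro i _ hi
      simp [two, hi]
    · intro h'; exact absurd h h'
  · rw [Finsupp.notMem_support_iff.mp h, pow_zero]
    refine Finset.prod_eq_one ?_
    intro i hi
    have : i ≠ j := by rintro rfl; exact h hi
    simp [two, this]

/-- A nonzero ideal of polynomials stable under the torus contains a monomial. -/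
lemma exists_monomial (I : Ideal P) (hI : I ≠ ⊥) (hst : ∀ c, ∀ p ∈ I, torHom c p ∈ I) :
    ∃ ν : ℤ →₀ ℕ, monomial ν (1 : ℚ) ∈ I := by
  classical
  have key : ∀ n : ℕ, ∀ p ∈ I, p ≠ 0 → p.support.card ≤ n → ∃ ν : ℤ →₀ ℕ, monomial ν (1 : ℚ) ∈ I := by
    intro n
    induction n with
    | zero =>
      intro p _ hp0 hc
      exfalso
      apply hp0
      rw [← support_eq_empty]
      simpa using hc
    | succ n ih =>
      intro p hp hp0 hc
      obtain ⟨ν, hν⟩ : p.support.Nonempty := by
        rw [Finset.nonempty_iff_ne_empty]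
        rwa [Ne, support_eq_empty]
      by_cases hone : ∃ μ ∈ p.support, μ ≠ ν
      · obtain ⟨μ, hμ, hμν⟩ := hone
        obtain ⟨j, hj⟩ : ∃ j, μ j ≠ ν j := by
          by_contra hcon
          push Not at hcon
          exact hμν (Finsupp.ext hcon)
        refine ih (C (2 ^ (ν j)) * p - torHom (two j) p) (I.sub_mem (I.mul_mem_left _ hp) (hst _ _ hp)) ?_ ?_
        · intro h0
          have := congrArg (coeff μ) h0
          rw [coeff_sub, coeff_C_mul, coeff_two, coeff_zero] at this
          have hc0 : coeff μ p ≠ 0 := mem_support_iff.mp hμ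
          have h2 : (2 : ℚ) ^ (ν j) = 2 ^ (μ j) := by
            have h3 : coeff μ p * ((2 : ℚ) ^ (ν j) - 2 ^ (μ j)) = 0 := by linarith
            rcases mul_eq_zero.mp h3 with h4 | h4
            · exact absurd h4 hc0
            · linarith
          have := (pow_right_injective₀ (by norm_num : (0 : ℚ) < 2) (by norm_num : (2 : ℚ) ≠ 1)) h2
          exact hj this.symm
        · have hsub : (C (2 ^ (ν j)) * p - torHom (two j) p).support ⊆ p.support.erase ν := by
            intro κ hκ
            rw [Finset.mem_erase]
            rw [mem_support_iff, coeff_sub, coeff_C_mul, coeff_two] at hκ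
            constructor
            · rintro rfl
              apply hκ; ring
            · rw [mem_support_iff]
              intro h; apply hκ; rw [h]; ring
          have h1 := Finset.card_le_card hsub
          rw [Finset.card_erase_of_mem hν] at h1
          omega
      · push Not at hone
        have hs : p.support = {ν} := by
          ext κ
          rw [Finset.mem_singleton]
          exact ⟨hone κ, fun h => h ▸ hν⟩
        have hp1 : p = monomial ν (coeff ν p) := by
          ext κ
          rw [coeff_monomial]
          split_ifs with h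
          · rw [h]
          · by_contra hne
            exact h (hone κ (mem_support_iff.mpr hne)).symm
        have hc0 : coeff ν p ≠ 0 := mem_support_iff.mp hν
        refine ⟨ν, ?_⟩
        have : monomial ν (1 : ℚ) = C (coeff ν p)⁻¹ * p := by
          conv_rhs => rw [hp1]
          rw [C_mul_monomial, coeff_monomial, if_pos rfl, inv_mul_cancel₀ hc0]
        rw [this]
        exact I.mul_mem_left _ hp
  obtain ⟨p, hp, hp0⟩ := Submodule.exists_mem_ne_zero_of_ne_bot hI
  exact key _ p hp hp0 le_rfl

/-- A nonzero ideal of polynomials stable under the torus and the shift contains an element which is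
divisible by no variable. -/
lemma exists_good (I : Ideal P) (hI : I ≠ ⊥) (hst : ∀ c, ∀ p ∈ I, torHom c p ∈ I)
    (hsh : ∀ t, ∀ p ∈ I, shHom t p ∈ I) : ∃ q ∈ I, ∀ i, ev i q ≠ 0 := by
  classical
  obtain ⟨ν, hν⟩ := exists_monomial I hI hst
  obtain ⟨N, hN⟩ : ∃ N : ℤ, ∀ i ∈ ν.support, ∀ j ∈ ν.support, i + N ≠ j := by
    obtain ⟨M, hM⟩ : ∃ M : ℕ, ∀ i ∈ ν.support, i.natAbs ≤ M :=
      ⟨ν.support.sup Int.natAbs, fun i hi => Finset.le_sup (f := Int.natAbs) hi⟩
    refine ⟨2 * M + 1, fun i hi j hj h => ?_⟩
    have h1 := hM i hi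
    have h2 := hM j hj
    omega
  refine ⟨monomial ν 1 + shHom N (monomial ν 1), I.add_mem hν (hsh _ _ hν), ?_⟩
  intro i h0
  -- evaluate everything at one
  have hev1 : ∀ i, ∀ μ : ℤ →₀ ℕ, i ∉ μ.support → ev i (monomial μ (1 : ℚ)) = monomial μ 1 := by
    intro i μ hi
    rw [ev, aeval_monomial, monomial_eq]
    simp only [map_one, one_mul]
    refine Finset.prod_congr rfl fun j hj => ?_
    have : j ≠ i := by rintro rfl; exact hi hj
    simp [this]
  have hev2 : ∀ i, ∀ μ : ℤ →₀ ℕ, ev i (monomial μ (1 : ℚ)) = monomial μ 1 ∨ ev i (monomial μ (1 : ℚ)) = 0 := by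
    intro i μ
    by_cases h : i ∈ μ.support
    · right
      rw [ev, aeval_monomial]
      rw [Finsupp.prod, Finset.prod_eq_zero h, mul_zero]
      have : μ i ≠ 0 := Finsupp.mem_support_iff.mp h
      simp [this]
    · left; exact hev1 i μ h
  have hsm : shHom N (monomial ν (1 : ℚ)) = monomial (ν.mapDomain (fun i => i + N)) 1 := by
    rw [shHom, rename_monomial]
  have e1 : ∀ μ : ℤ →₀ ℕ, aeval (fun _ : ℤ => (1 : ℚ)) (monomial μ (1 : ℚ)) = (1 : ℚ) := by
    intro μ
    rw [aeval_monomial]
    simp [Finsupp.prod]
  have h1 := congrArg (aeval (fun _ : ℤ => (1 : ℚ))) h0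
  rw [map_add, map_add, map_zero, hsm] at h1
  rcases hev2 i ν with ha | ha <;> rcases hev2 i (ν.mapDomain (fun i => i + N)) with hb | hb
  · rw [ha, hb, e1, e1] at h1; norm_num at h1
  · rw [ha, hb, e1, map_zero] at h1; norm_num at h1
  · rw [ha, hb, e1, map_zero] at h1; norm_num at h1
  · -- both vanish: `i` in both supports
    have hi1 : i ∈ ν.support := by
      by_contra hcon
      rw [hev1 i ν hcon] at ha
      have := congrArg (aeval (fun _ : ℤ => (1 : ℚ))) ha
      rw [e1, map_zero] at this
      norm_num at this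
    have hi2 : i ∈ (ν.mapDomain (fun i => i + N)).support := by
      by_contra hcon
      rw [hev1 i _ hcon] at hb
      have := congrArg (aeval (fun _ : ℤ => (1 : ℚ))) hb
      rw [e1, map_zero] at this
      norm_num at this
    have := Finsupp.mapDomain_support hi2
    rw [Finset.mem_image] at this
    obtain ⟨j, hj, hji⟩ := this
    exact hN j hj i hi1 hji

end Pool.Agent.Q11.GS
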