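import Mathlib
import Pool.Agent.Q11.GS.Poly

/-!
# The field of rational functions, the subring `B` and the operators
-/

set_option autoImplicit false

namespace Pool.Agent.Q11.GS

open MvPolynomial

/-- The field of rational functions. -/
abbrev K : Type := FractionRing P

/-- The inclusion. -/
noncomputable def ι : P →+* K := algebraMap P K

lemma ι_inj : Function.Injective ι := IsFractionRing.injective P K

lemma ι_eq_zero {p : P} : ι p = 0 ↔ p = 0 := by
  rw [← map_zero ι]; exact ι_inj.eq_iff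

/-- The torus acting on `K`. -/
noncomputable def torK : T →* (K ≃+* K) := (IsFractionRing.ringEquivOfRingEquivHom P K).comp tor

/-- The shift acting on `K`. -/
noncomputable def shK : Multiplicative ℤ →* (K ≃+* K) :=
  (IsFractionRing.ringEquivOfRingEquivHom P K).comp sh

lemma torK_ι (c : T) (p : P) : torK c (ι p) = ι (torHom c p) :=
  IsFractionRing.ringEquivOfRingEquiv_algebraMap (tor c) p

lemma shK_ι (t : Multiplicative ℤ) (p : P) : shK t (ι p) = ι (shHom t.toAdd p) :=
  IsFractionRing.ringEquivOfRingEquiv_algebraMap (sh t) p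

/-- The subring of rational functions with a denominator divisible by no variable. -/
noncomputable def B : Subring K where
  carrier := {z | ∃ p q : P, (∀ i, ev i q ≠ 0) ∧ z * ι q = ι p}
  one_mem' := ⟨1, 1, by simp, by simp⟩
  zero_mem' := ⟨0, 1, by simp, by simp⟩
  mul_mem' := by
    rintro a b ⟨p, q, hq, h⟩ ⟨p', q', hq', h'⟩
    refine ⟨p * p', q * q', fun i => ?_, ?_⟩
    · rw [map_mul]; exact mul_ne_zero (hq i) (hq' i)
    · rw [map_mul, map_mul, ← h, ← h']; ring
  add_mem' := by
    rintro a b ⟨p, q, hq, h⟩ ⟨p', q', hq', h'⟩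
    refine ⟨p * q' + p' * q, q * q', fun i => ?_, ?_⟩
    · rw [map_mul]; exact mul_ne_zero (hq i) (hq' i)
    · rw [map_mul, map_add, map_mul, map_mul, ← h, ← h']; ring
  neg_mem' := by
    rintro a ⟨p, q, hq, h⟩
    exact ⟨-p, q, hq, by rw [map_neg, ← h]; ring⟩

lemma ι_mem_B (p : P) : ι p ∈ B := ⟨p, 1, by simp, by simp⟩

lemma inv_mem_B (q : P) (hq : ∀ i, ev i q ≠ 0) : (ι q)⁻¹ ∈ B := by
  refine ⟨1, q, hq, ?_⟩
  have : ι q ≠ 0 := by
    rw [Ne, ι_eq_zero]
    rintro rfl
    exact hq 0 (map_zero _)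
  rw [inv_mul_cancel₀ this, map_one]

lemma torHom_injective (c : T) : Function.Injective (torHom c) := by
  intro p q h
  exact (tor c).injective h

lemma shHom_injective (t : ℤ) : Function.Injective (shHom t) := by
  intro p q h
  exact (sh (Multiplicative.ofAdd t)).injective h

lemma torK_mem_B (c : T) {b : K} (hb : b ∈ B) : torK c b ∈ B := by
  obtain ⟨p, q, hq, h⟩ := hb
  refine ⟨torHom c p, torHom c q, fun i h0 => ?_, ?_⟩
  · rw [ev_tor] at h0
    exact hq i (torHom_injective c (by rw [h0, map_zero]))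
  · rw [← torK_ι, ← torK_ι, ← map_mul, h]

lemma shK_mem_B (t : Multiplicative ℤ) {b : K} (hb : b ∈ B) : shK t b ∈ B := by
  obtain ⟨p, q, hq, h⟩ := hb
  refine ⟨shHom t.toAdd p, shHom t.toAdd q, fun i h0 => ?_, ?_⟩
  · have : i = (i - t.toAdd) + t.toAdd := by ring
    rw [this, ev_sh] at h0
    exact hq (i - t.toAdd) (shHom_injective _ (by rw [h0, map_zero]))
  · rw [← shK_ι, ← shK_ι, ← map_mul, h]

/-- An element of `B` cannot have a negative weight. -/
lemma no_neg_weight (j : ℤ) (m : ℕ) (hm : 0 < m) {b : K} (hb : b ∈ B)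
    (h : ι (C (2 ^ m)) * torK (two j) b = b) : b = 0 := by
  obtain ⟨p, q, hq, hpq⟩ := hb
  by_contra hb0
  have hp : p ≠ 0 := by
    rintro rfl
    rw [map_zero] at hpq
    rcases mul_eq_zero.mp hpq with h1 | h1
    · exact hb0 h1
    · rw [ι_eq_zero] at h1
      exact hq 0 (by rw [h1, map_zero])
  have h2 := congrArg (torK (two j)) hpq
  rw [map_mul, torK_ι, torK_ι] at h2
  have h3 : C (2 ^ m) * torHom (two j) p * q = p * torHom (two j) q := by
    apply ι_inj
    rw [map_mul, map_mul, map_mul, ← h2, ← hpq]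
    calc ι (C (2 ^ m)) * (torK (two j) b * ι (torHom (two j) q)) * ι q
        = (ι (C (2 ^ m)) * torK (two j) b) * ι (torHom (two j) q) * ι q := by ring
      _ = b * ι (torHom (two j) q) * ι q := by rw [h]
      _ = b * ι q * ι (torHom (two j) q) := by ring
  obtain ⟨v, p', hp', hev⟩ := exists_factor j p hp
  have ht : torHom (two j) p = C (2 ^ v) * X j ^ v * torHom (two j) p' := by
    rw [hp', map_mul, map_pow, torHom_X, mul_pow, ← C_pow]
    congr 2
    simp [two]
  have hX : (X j : P) ^ v ≠ 0 := pow_ne_zero _ (X_ne_zero j)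
  have h4 : C (2 ^ m) * C (2 ^ v) * torHom (two j) p' * q = p' * torHom (two j) q := by
    rw [ht] at h3
    rw [hp'] at h3
    apply mul_left_cancel₀ hX
    linear_combination h3
  have h5 := congrArg (ev j) h4
  rw [map_mul, map_mul, map_mul, map_mul, ev_two, ev_two, ev_C, ev_C] at h5
  have hne : ev j p' * ev j q ≠ 0 := mul_ne_zero hev (hq j)
  have h6 : (C (2 ^ m) * C (2 ^ v) : P) = 1 := by
    apply mul_right_cancel₀ hne
    linear_combination h5
  rw [← C_mul, ← C_1] at h6
  have h7 := C_injective _ _ h6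
  rw [← pow_add] at h7
  have h8 : (1 : ℚ) < 2 ^ (m + v) := one_lt_pow₀ (by norm_num) (by omega)
  linarith

/-- The variables as units of `K`. -/
noncomputable def Xu (i : ℤ) : Kˣ := Units.mk0 (ι (X i)) (by rw [Ne, ι_eq_zero]; exact X_ne_zero i)

/-- The constants as units of `K`. -/
noncomputable def κ : ℚˣ →* Kˣ := Units.map ((ι.comp C : ℚ →+* K) : ℚ →* K)

/-- Laurent monomials. -/
noncomputable def mon (n : ℤ →₀ ℤ) : Kˣ := n.prod fun i m => Xu i ^ m

lemma mon_zero : mon 0 = 1 := by simp [mon]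

lemma mon_add (n m : ℤ →₀ ℤ) : mon (n + m) = mon n * mon m := by
  rw [mon, Finsupp.prod_add_index']
  · rfl
  · intro i; simp
  · intro i a b; exact zpow_add _ _ _

lemma mon_neg (n : ℤ →₀ ℤ) : mon (-n) = (mon n)⁻¹ := by
  rw [eq_inv_iff_mul_eq_one, ← mon_add, neg_add_cancel, mon_zero]

lemma mon_single (i m : ℤ) : mon (Finsupp.single i m) = Xu i ^ m := by
  rw [mon, Finsupp.prod_single_index]; simp

/-- The characters. -/
noncomputable def chi (n : ℤ →₀ ℤ) (c : T) : ℚˣ := n.prod fun i m => c i ^ m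

lemma chi_two (n : ℤ →₀ ℤ) (j : ℤ) : chi n (two j) = (Units.mk0 2 (by norm_num)) ^ (n j) := by
  rw [chi, Finsupp.prod]
  by_cases h : j ∈ n.support
  · rw [Finset.prod_eq_single j]
    · simp [two]
    · intro i _ hi
      simp [two, hi]
    · intro h'; exact absurd h h'
  · rw [Finsupp.notMem_support_iff.mp h, zpow_zero]
    refine Finset.prod_eq_one ?_
    intro i hi
    have : i ≠ j := by rintro rfl; exact h hi
    simp [two, this]

/-- The torus on units. -/
noncomputable def torU (c : T) : Kˣ →* Kˣ := Units.map ((torK c : K →+* K) : K →* K)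

lemma torU_val (c : T) (u : Kˣ) : ((torU c u : Kˣ) : K) = torK c u := rfl

lemma torU_Xu (c : T) (i : ℤ) : torU c (Xu i) = κ (c i) * Xu i := by
  ext
  rw [torU_val]
  change torK c (ι (X i)) = ι (C (c i : ℚ)) * ι (X i)
  rw [torK_ι, torHom_X, map_mul]

lemma torU_mon (c : T) (n : ℤ →₀ ℤ) : torU c (mon n) = κ (chi n c) * mon n := by
  rw [mon, map_finsuppProd]
  simp only [map_zpow, torU_Xu, mul_zpow, Finsupp.prod_mul]
  rw [chi, map_finsuppProd]
  simp only [map_zpow]

/-- The shift on units. -/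
noncomputable def shU (t : Multiplicative ℤ) : Kˣ →* Kˣ := Units.map ((shK t : K →+* K) : K →* K)

lemma shU_val (t : Multiplicative ℤ) (u : Kˣ) : ((shU t u : Kˣ) : K) = shK t u := rfl

lemma shU_Xu (t : Multiplicative ℤ) (i : ℤ) : shU t (Xu i) = Xu (i + t.toAdd) := by
  ext
  rw [shU_val]
  change shK t (ι (X i)) = ι (X (i + t.toAdd))
  rw [shK_ι, shHom_X]

lemma shU_mon (t : Multiplicative ℤ) (n : ℤ →₀ ℤ) :
    shU t (mon n) = mon (n.mapDomain (fun i => i + t.toAdd)) := by
  rw [mon, map_finsuppProd, mon, Finsupp.prod_mapDomain_index]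
  · simp only [map_zpow, shU_Xu]
  · intro i; simp
  · intro i a b; exact zpow_add _ _ _

/-- Degree. -/
noncomputable def deg : (ℤ →₀ ℤ) →+ ℤ := Finsupp.liftAddHom fun _ => AddMonoidHom.id ℤ

lemma deg_mapDomain (f : ℤ → ℤ) (n : ℤ →₀ ℤ) : deg (n.mapDomain f) = deg n := by
  rw [deg, Finsupp.liftAddHom_apply, Finsupp.liftAddHom_apply, Finsupp.sum_mapDomain_index]
  · intro i; rfl
  · intro i a b; rfl

lemma exists_pos (n : ℤ →₀ ℤ) (hd : deg n = 0) (h0 : n ≠ 0) : ∃ j, 0 < n j := by
  by_contra hcon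
  push Not at hcon
  apply h0
  rw [deg, Finsupp.liftAddHom_apply, Finsupp.sum] at hd
  have := (Finset.sum_eq_zero_iff_of_nonpos (fun i _ => hcon i)).mp hd
  ext i
  by_cases hi : i ∈ n.support
  · exact this i hi
  · exact Finsupp.notMem_support_iff.mp hi

end Pool.Agent.Q11.GS
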