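import Mathlib
import Pool.Agent.Q11.GS.Field

/-!
# The ring `S` of operators and the group `G` of invertible operators normalizing it
-/

set_option autoImplicit false

namespace Pool.Agent.Q11.GS

open MvPolynomial

/-- Additive endomorphisms of the field. -/
abbrev E : Type := AddMonoid.End K

/-- Multiplication operators. -/
noncomputable def L : K →+* E where
  toFun b := AddMonoidHom.mulLeft b
  map_one' := by ext x; change 1 * x = x; rw [one_mul]
  map_mul' a b := by ext x; change (a * b) * x = a * (b * x); rw [mul_assoc]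
  map_zero' := by ext x; change 0 * x = 0; rw [zero_mul]
  map_add' a b := by ext x; change (a + b) * x = a * x + b * x; rw [add_mul]

lemma L_apply (b x : K) : L b x = b * x := rfl

/-- Automorphisms as operators. -/
noncomputable def A : (K ≃+* K) →* E where
  toFun φ := (φ : K →+* K).toAddMonoidHom
  map_one' := rfl
  map_mul' φ ψ := rfl

lemma A_apply (φ : K ≃+* K) (x : K) : A φ x = φ x := rfl

lemma E_mul_apply (a b : E) (x : K) : (a * b) x = a (b x) := rfl

lemma A_L (φ : K ≃+* K) (b : K) : A φ * L b = L (φ b) * A φ := by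
  ext x
  change φ (b * x) = φ b * φ x
  rw [map_mul]

/-- The operator of a torus element. -/
noncomputable def Y (c : T) : E := A (torK c)

lemma Y_one : Y 1 = 1 := by rw [Y, map_one, map_one]

lemma Y_mul (c d : T) : Y (c * d) = Y c * Y d := by rw [Y, map_mul, map_mul]; rfl

lemma Y_L (c : T) (b : K) : Y c * L b = L (torK c b) * Y c := A_L _ _

/-- Normal form operators. -/
noncomputable def nf (f : T →₀ K) : E := f.sum fun c b => L b * Y c

lemma nf_zero : nf 0 = 0 := Finsupp.sum_zero_index

lemma nf_add (f g : T →₀ K) : nf (f + g) = nf f + nf g := by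
  rw [nf, Finsupp.sum_add_index']
  · rfl
  · intro c; rw [map_zero, zero_mul]
  · intro c a b; rw [map_add, add_mul]

lemma nf_single (c : T) (b : K) : nf (Finsupp.single c b) = L b * Y c := by
  rw [nf, Finsupp.sum_single_index]
  rw [map_zero, zero_mul]

lemma nf_apply (f : T →₀ K) (x : K) : nf f x = f.sum fun c b => b * torK c x := by
  induction f using Finsupp.induction_linear with
  | zero => rw [nf_zero, Finsupp.sum_zero_index]; rfl
  | add f g hf hg =>
    rw [nf_add, Finsupp.sum_add_index', ← hf, ← hg]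
    · rfl
    · intro c; rw [zero_mul]
    · intro c a b; rw [add_mul]
  | single c b =>
    rw [nf_single, Finsupp.sum_single_index]
    · rfl
    · rw [zero_mul]

lemma torK_injective : Function.Injective torK :=
  (IsFractionRing.ringEquivOfRingEquivHom_injective P K).comp (by
    intro c d h
    funext i
    have h1 := congrArg (fun φ : P ≃+* P => φ (X i)) h
    simp only [tor_apply, torHom_X] at h1
    have h2 := mul_right_cancel₀ (X_ne_zero i) h1
    exact Units.ext (C_injective _ _ h2))

/-- Dedekind independence. -/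
lemma nf_inj {f : T →₀ K} (h : nf f = 0) : f = 0 := by
  have hli : LinearIndependent K (fun c : T => ((torK c : K →* K) : K → K)) := by
    have h0 := (linearIndependent_monoidHom K K).comp (fun c : T => (torK c : K →* K)) (by
      intro c d hcd
      apply torK_injective
      ext x
      exact DFunLike.congr_fun hcd x)
    exact h0
  rw [linearIndependent_iff] at hli
  apply hli
  funext x
  have := DFunLike.congr_fun h x
  rw [nf_apply] at this
  rw [Finsupp.linearCombination_apply, Finsupp.sum, Finset.sum_apply]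
  simpa [Finsupp.sum] using this

lemma nf_injective : Function.Injective nf := by
  intro f g h
  have : nf (f - g) = 0 := by
    have h1 : nf (f - g) + nf g = nf f := by rw [← nf_add, sub_add_cancel]
    rw [h] at h1
    exact add_eq_right.mp h1
  exact sub_eq_zero.mp (nf_inj this)

/-- The generators of `S`. -/
noncomputable def gens : Submonoid E where
  carrier := {e | ∃ b ∈ B, ∃ c, e = L b * Y c}
  one_mem' := ⟨1, B.one_mem, 1, by rw [map_one, Y_one, one_mul]⟩
  mul_mem' := by
    rintro _ _ ⟨b, hb, c, rfl⟩ ⟨b', hb', c', rfl⟩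
    refine ⟨b * torK c b', B.mul_mem hb (torK_mem_B c hb'), c * c', ?_⟩
    rw [map_mul, Y_mul]
    calc L b * Y c * (L b' * Y c') = L b * (Y c * L b') * Y c' := by simp only [mul_assoc]
      _ = _ := by rw [Y_L]; simp only [mul_assoc]

/-- The ring `S`. -/
noncomputable def S : Subring E := Subring.closure (gens : Set E)

lemma mem_S_of {b : K} (hb : b ∈ B) (c : T) : L b * Y c ∈ S :=
  Subring.subset_closure ⟨b, hb, c, rfl⟩

lemma L_mem_S {b : K} (hb : b ∈ B) : L b ∈ S := by
  have := mem_S_of hb 1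
  rwa [Y_one, mul_one] at this

lemma Y_mem_S (c : T) : Y c ∈ S := by
  have := mem_S_of B.one_mem c
  rwa [map_one, one_mul] at this

lemma mem_S_iff {e : E} : e ∈ S ↔ ∃ f : T →₀ K, (∀ c, f c ∈ B) ∧ e = nf f := by
  constructor
  · intro he
    rw [S, Subring.mem_closure_iff, Submonoid.closure_eq] at he
    induction he using AddSubgroup.closure_induction with
    | mem x hx =>
      obtain ⟨b, hb, c, rfl⟩ := hx
      refine ⟨Finsupp.single c b, fun d => ?_, (nf_single c b).symm⟩
      classical
      rw [Finsupp.single_apply]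
      split_ifs
      · exact hb
      · exact B.zero_mem
    | zero => exact ⟨0, fun c => B.zero_mem, nf_zero.symm⟩
    | add x y _ _ hx hy =>
      obtain ⟨f, hf, rfl⟩ := hx
      obtain ⟨g, hg, rfl⟩ := hy
      exact ⟨f + g, fun c => B.add_mem (hf c) (hg c), (nf_add f g).symm⟩
    | neg x _ hx =>
      obtain ⟨f, hf, rfl⟩ := hx
      refine ⟨-f, fun c => B.neg_mem (hf c), ?_⟩
      rw [neg_eq_iff_add_eq_zero, ← nf_add, add_neg_cancel, nf_zero]
  · rintro ⟨f, hf, rfl⟩
    rw [nf, Finsupp.sum]
    exact S.sum_mem fun c _ => mem_S_of (hf c) c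

/-- Multiplying a normal form from the left by a multiplication operator. -/
lemma L_mul_nf (a : K) (f : T →₀ K) : L a * nf f = nf (f.mapRange (fun b => a * b) (mul_zero a)) := by
  induction f using Finsupp.induction_linear with
  | zero => simp [nf_zero]
  | add f g hf hg =>
    rw [nf_add, mul_add, hf, hg, ← nf_add, Finsupp.mapRange_add]
    intro x y; ring
  | single c b => rw [Finsupp.mapRange_single, nf_single, nf_single, map_mul, mul_assoc]

lemma nf_mul_Y (f : T →₀ K) (d : T) : nf f * Y d = nf (f.mapDomain (fun c => c * d)) := by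
  induction f using Finsupp.induction_linear with
  | zero => simp [nf_zero]
  | add f g hf hg => rw [nf_add, add_mul, hf, hg, ← nf_add, Finsupp.mapDomain_add]
  | single c b => rw [Finsupp.mapDomain_single, nf_single, nf_single, Y_mul, mul_assoc]

/-- Multiplying a normal form from the right by a variable. -/
lemma nf_mul_X (f : T →₀ K) (i : ℤ) :
    ∃ g : T →₀ K, nf f * L (ι (X i)) = nf g ∧ ∀ c, g c = f c * ι (C (c i : ℚ)) * ι (X i) := by
  induction f using Finsupp.induction_linear with
  | zero => exact ⟨0, by simp [nf_zero], by simp⟩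
  | add f f' hf hf' =>
    obtain ⟨g, hg, hc⟩ := hf
    obtain ⟨g', hg', hc'⟩ := hf'
    refine ⟨g + g', by rw [nf_add, add_mul, hg, hg', nf_add], fun c => ?_⟩
    rw [Finsupp.add_apply, Finsupp.add_apply, hc, hc']; ring
  | single c b =>
    refine ⟨Finsupp.single c (b * ι (C (c i : ℚ)) * ι (X i)), ?_, ?_⟩
    · rw [nf_single, nf_single, mul_assoc, Y_L, torK_ι, torHom_X, map_mul, ← mul_assoc, ← map_mul,
        mul_assoc]
    · intro d
      classical
      rw [Finsupp.single_apply, Finsupp.single_apply]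
      split_ifs with h
      · rw [h]
      · simp

/-- The units given by Laurent monomials and shifts. -/
noncomputable def LU : Kˣ →* Eˣ := Units.map (L : K →* E)

lemma LU_val (u : Kˣ) : ((LU u : Eˣ) : E) = L u := rfl

lemma LU_inv_val (u : Kˣ) : (((LU u)⁻¹ : Eˣ) : E) = L ((u⁻¹ : Kˣ) : K) := by
  rw [← map_inv]; rfl

noncomputable def SU : Multiplicative ℤ →* Eˣ := (A.comp shK).toHomUnits

lemma SU_val (t : Multiplicative ℤ) : ((SU t : Eˣ) : E) = A (shK t) := rfl

lemma SU_inv_val (t : Multiplicative ℤ) : (((SU t)⁻¹ : Eˣ) : E) = A (shK t⁻¹) := by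
  rw [← map_inv]; rfl

lemma SU_LU (t : Multiplicative ℤ) (u : Kˣ) : SU t * LU u = LU (shU t u) * SU t := by
  ext1
  exact A_L (shK t) u

/-- The group `G` of all operators `x^n ∘ shift^t` with `n` of degree zero. -/
noncomputable def G : Subgroup Eˣ where
  carrier := {w | ∃ n : ℤ →₀ ℤ, deg n = 0 ∧ ∃ t : Multiplicative ℤ, w = LU (mon n) * SU t}
  one_mem' := ⟨0, map_zero _, 1, by rw [mon_zero, map_one, map_one, one_mul]⟩
  mul_mem' := by
    rintro _ _ ⟨n, hn, t, rfl⟩ ⟨m, hm, s, rfl⟩
    refine ⟨n + m.mapDomain (fun i => i + t.toAdd), ?_, t * s, ?_⟩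
    · rw [map_add, deg_mapDomain, hn, hm, add_zero]
    · rw [mon_add, map_mul, map_mul, ← shU_mon]
      calc LU (mon n) * SU t * (LU (mon m) * SU s) = LU (mon n) * (SU t * LU (mon m)) * SU s := by
            simp only [mul_assoc]
        _ = _ := by rw [SU_LU]; simp only [mul_assoc]
  inv_mem' := by
    rintro _ ⟨n, hn, t, rfl⟩
    refine ⟨(-n).mapDomain (fun i => i + (t⁻¹).toAdd), ?_, t⁻¹, ?_⟩
    · rw [deg_mapDomain, map_neg, hn, neg_zero]
    · rw [← shU_mon, ← SU_LU, mon_neg, mul_inv_rev, map_inv, map_inv]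

/-- Conjugation of the torus operators. -/
lemma conj_Y (n : ℤ →₀ ℤ) (t : Multiplicative ℤ) (c : T) :
    ((LU (mon n) * SU t : Eˣ) : E) * Y c =
      L (κ (chi n (fun i => c (i - t.toAdd)))⁻¹ : Kˣ) * Y (fun i => c (i - t.toAdd)) *
        ((LU (mon n) * SU t : Eˣ) : E) := by
  set d : T := fun i => c (i - t.toAdd) with hd
  have h1 : shK t * torK c = torK d * shK t := by
    have : sh t * tor c = tor d * sh t := by
      ext1 p
      change shHom t.toAdd (torHom c p) = torHom d (shHom t.toAdd p)
      have : (shHom t.toAdd).comp (torHom c) = (torHom d).comp (shHom t.toAdd) := by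
        ext1 i
        simp [hd]
      exact DFunLike.congr_fun this p
    rw [shK, torK, MonoidHom.comp_apply, MonoidHom.comp_apply, MonoidHom.comp_apply,
      ← map_mul, this, map_mul]
  have h2 : A (shK t) * Y c = Y d * A (shK t) := by
    rw [Y, Y, ← map_mul, ← map_mul, h1]
  have h3 : L (mon n : Kˣ) * Y d = L (κ (chi n d)⁻¹ : Kˣ) * Y d * L (mon n : Kˣ) := by
    rw [mul_assoc, Y_L, ← torU_val, torU_mon, ← mul_assoc, ← map_mul]
    congr 2
    rw [← Units.val_mul, ← mul_assoc, ← map_mul, inv_mul_cancel, map_one, one_mul]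
  rw [Units.val_mul, LU_val, SU_val]
  calc L (mon n : Kˣ) * A (shK t) * Y c = L (mon n : Kˣ) * (A (shK t) * Y c) := by rw [mul_assoc]
    _ = L (mon n : Kˣ) * Y d * A (shK t) := by rw [h2, mul_assoc]
    _ = L (κ (chi n d)⁻¹ : Kˣ) * Y d * L (mon n : Kˣ) * A (shK t) := by rw [h3]
    _ = _ := by simp only [mul_assoc]

lemma conj_L (n : ℤ →₀ ℤ) (t : Multiplicative ℤ) (b : K) :
    ((LU (mon n) * SU t : Eˣ) : E) * L b = L (shK t b) * ((LU (mon n) * SU t : Eˣ) : E) := by
  rw [Units.val_mul, LU_val, SU_val]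
  calc L (mon n : Kˣ) * A (shK t) * L b = L (mon n : Kˣ) * (A (shK t) * L b) := by rw [mul_assoc]
    _ = L (mon n : Kˣ) * L (shK t b) * A (shK t) := by rw [A_L, mul_assoc]
    _ = L (shK t b) * L (mon n : Kˣ) * A (shK t) := by rw [← map_mul, mul_comm, map_mul]
    _ = _ := by simp only [mul_assoc]

lemma κ_mem_B (r : ℚˣ) : ((κ r : Kˣ) : K) ∈ B := ι_mem_B (C (r : ℚ))

/-- `G` normalizes `S`. -/
lemma conj_mem {w : Eˣ} (hw : w ∈ G) {e : E} (he : e ∈ S) : (w : E) * e * ((w⁻¹ : Eˣ) : E) ∈ S := by
  obtain ⟨n, hn, t, hw⟩ := hw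
  rw [S] at he
  induction he using Subring.closure_induction with
  | mem x hx =>
    obtain ⟨b, hb, c, rfl⟩ := hx
    have h1 : (w : E) * (L b * Y c) * ((w⁻¹ : Eˣ) : E) =
        L (shK t b) * (L (κ (chi n (fun i => c (i - t.toAdd)))⁻¹ : Kˣ) * Y (fun i => c (i - t.toAdd))) := by
      have h2 := conj_L n t b
      have h3 := conj_Y n t c
      rw [← hw] at h2 h3
      calc (w : E) * (L b * Y c) * ((w⁻¹ : Eˣ) : E)
          = ((w : E) * L b) * Y c * ((w⁻¹ : Eˣ) : E) := by simp only [mul_assoc]
        _ = L (shK t b) * ((w : E) * Y c) * ((w⁻¹ : Eˣ) : E) := by rw [h2]; simp only [mul_assoc]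
        _ = _ := by rw [h3]; simp only [mul_assoc, Units.mul_inv, mul_one]
    rw [h1]
    exact S.mul_mem (L_mem_S (shK_mem_B t hb)) (mem_S_of (κ_mem_B _) _)
  | zero => rw [mul_zero, zero_mul]; exact S.zero_mem
  | one => rw [mul_one, Units.mul_inv]; exact S.one_mem
  | add x y _ _ hx hy => rw [mul_add, add_mul]; exact S.add_mem hx hy
  | neg x _ hx =>
    have h1 := S.neg_mem hx
    have h2 : (w : E) * -x * ((w⁻¹ : Eˣ) : E) = -((w : E) * x * ((w⁻¹ : Eˣ) : E)) := by
      rw [eq_neg_iff_add_eq_zero, ← add_mul, ← mul_add, neg_add_cancel, mul_zero, zero_mul]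
    rw [h2]
    exact h1
  | mul x y _ _ hx hy =>
    have : (w : E) * (x * y) * ((w⁻¹ : Eˣ) : E) =
        ((w : E) * x * ((w⁻¹ : Eˣ) : E)) * ((w : E) * y * ((w⁻¹ : Eˣ) : E)) := by
      simp only [mul_assoc, Units.inv_mul_cancel_left]
    rw [this]
    exact S.mul_mem hx hy

end Pool.Agent.Q11.GS
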