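import Mathlib
import Pool.Agent.Q11.GS.Ops

/-!
# `S` is `G`-simple and no element of `G` is partially inner on `S`
-/

set_option autoImplicit false

namespace Pool.Agent.Q11.GS

open MvPolynomial

/-- The action of `G` on `S` by conjugation. -/
noncomputable instance : MulSemiringAction G S where
  smul w s := ⟨((w : Eˣ) : E) * (s : E) * (((w : Eˣ)⁻¹ : Eˣ) : E), conj_mem w.2 s.2⟩
  one_smul s := Subtype.ext (by
    change ((1 : Eˣ) : E) * (s : E) * (((1 : Eˣ)⁻¹ : Eˣ) : E) = s
    rw [inv_one, Units.val_one, one_mul, mul_one])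
  mul_smul v w s := Subtype.ext (by
    change (((v : Eˣ) * (w : Eˣ) : Eˣ) : E) * (s : E) * ((((v : Eˣ) * (w : Eˣ))⁻¹ : Eˣ) : E) =
      ((v : Eˣ) : E) * (((w : Eˣ) : E) * (s : E) * (((w : Eˣ)⁻¹ : Eˣ) : E)) * (((v : Eˣ)⁻¹ : Eˣ) : E)
    rw [mul_inv_rev, Units.val_mul, Units.val_mul]
    simp only [mul_assoc])
  smul_zero w := Subtype.ext (by
    change ((w : Eˣ) : E) * 0 * (((w : Eˣ)⁻¹ : Eˣ) : E) = 0
    rw [mul_zero, zero_mul])
  smul_add w a b := Subtype.ext (by
    change ((w : Eˣ) : E) * ((a : E) + (b : E)) * (((w : Eˣ)⁻¹ : Eˣ) : E) =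
      ((w : Eˣ) : E) * (a : E) * (((w : Eˣ)⁻¹ : Eˣ) : E) + ((w : Eˣ) : E) * (b : E) * (((w : Eˣ)⁻¹ : Eˣ) : E)
    rw [mul_add, add_mul])
  smul_one w := Subtype.ext (by
    change ((w : Eˣ) : E) * 1 * (((w : Eˣ)⁻¹ : Eˣ) : E) = 1
    rw [mul_one, Units.mul_inv])
  smul_mul w a b := Subtype.ext (by
    change ((w : Eˣ) : E) * ((a : E) * (b : E)) * (((w : Eˣ)⁻¹ : Eˣ) : E) =
      (((w : Eˣ) : E) * (a : E) * (((w : Eˣ)⁻¹ : Eˣ) : E)) * (((w : Eˣ) : E) * (b : E) * (((w : Eˣ)⁻¹ : Eˣ) : E))
    simp only [mul_assoc, Units.inv_mul_cancel_left])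

lemma smul_val (w : G) (s : S) :
    ((w • s : S) : E) = ((w : Eˣ) : E) * (s : E) * (((w : Eˣ)⁻¹ : Eˣ) : E) := rfl

/-- The shift as an element of `G`. -/
noncomputable def gSh (t : Multiplicative ℤ) : G :=
  ⟨SU t, 0, map_zero _, t, by rw [mon_zero, map_one, one_mul]⟩

/-- A nonzero two-sided ideal of `S` contains a nonzero element of `B`. -/
lemma exists_L_mem (J : TwoSidedIdeal S) (hJ : J ≠ ⊥) :
    ∃ b : K, ∃ hb : b ∈ B, b ≠ 0 ∧ (⟨L b, L_mem_S hb⟩ : S) ∈ J := by
  classical
  have key : ∀ n : ℕ, ∀ f : T →₀ K, (∀ c, f c ∈ B) → f ≠ 0 → f.support.card ≤ n →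
      ∀ (s : S), s ∈ J → (s : E) = nf f →
      ∃ b : K, ∃ hb : b ∈ B, b ≠ 0 ∧ (⟨L b, L_mem_S hb⟩ : S) ∈ J := by
    intro n
    induction n with
    | zero =>
      intro f _ hf0 hc
      exfalso
      apply hf0
      rw [← Finsupp.support_eq_empty]
      simpa using hc
    | succ n ih =>
      intro f hfB hf0 hc s hs hsf
      obtain ⟨c₀, hc₀⟩ : f.support.Nonempty := by
        rw [Finset.nonempty_iff_ne_empty]
        rwa [Ne, Finsupp.support_eq_empty]
      -- translate such that `1` is in the support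
      set f' : T →₀ K := f.mapDomain (fun c => c * c₀⁻¹) with hf'
      have hinj : Function.Injective (fun c : T => c * c₀⁻¹) := mul_left_injective _
      have hf'c : ∀ c, f' c = f (c * c₀) := by
        intro c
        have := Finsupp.mapDomain_apply hinj f (c * c₀)
        simpa using this
      have hsupp : f'.support.card = f.support.card := by
        rw [hf', Finsupp.mapDomain_support_of_injective hinj, Finset.card_image_of_injective _ hinj]
      set s' : S := s * ⟨Y c₀⁻¹, Y_mem_S _⟩ with hs'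
      have hs'J : s' ∈ J := J.mul_mem_right _ _ hs
      have hs'f : (s' : E) = nf f' := by
        rw [hs', hf', ← nf_mul_Y, ← hsf]; rfl
      have h1 : f' 1 ≠ 0 := by
        rw [hf'c, one_mul]; exact Finsupp.mem_support_iff.mp hc₀
      by_cases hone : ∃ c ∈ f'.support, c ≠ 1
      · obtain ⟨c, hcs, hc1⟩ := hone
        obtain ⟨j, hj⟩ : ∃ j, c j ≠ 1 := by
          by_contra hcon
          push Not at hcon
          exact hc1 (funext hcon)
        obtain ⟨g, hg, hgc⟩ := nf_mul_X f' j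
        set h : T →₀ K := g - f'.mapRange (fun b => ι (X j) * b) (mul_zero _) with hh
        have hhc : ∀ d, h d = f' d * ι (C ((d j : ℚ) - 1)) * ι (X j) := by
          intro d
          rw [hh, Finsupp.sub_apply, hgc, Finsupp.mapRange_apply, C_sub, map_sub, C_1, map_one]
          ring
        have hX : ι (X j) ≠ 0 := by rw [Ne, ι_eq_zero]; exact X_ne_zero j
        refine ih h ?_ ?_ ?_ (s' * ⟨L (ι (X j)), L_mem_S (ι_mem_B _)⟩ -
          ⟨L (ι (X j)), L_mem_S (ι_mem_B _)⟩ * s') ?_ ?_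
        · intro d
          rw [hhc, hf'c]
          exact B.mul_mem (B.mul_mem (hfB _) (ι_mem_B _)) (ι_mem_B _)
        · intro h0
          have := DFunLike.congr_fun h0 c
          rw [hhc, Finsupp.zero_apply] at this
          rcases mul_eq_zero.mp this with h2 | h2
          · rcases mul_eq_zero.mp h2 with h3 | h3
            · exact (Finsupp.mem_support_iff.mp hcs) h3
            · rw [ι_eq_zero] at h3
              rw [← C_0] at h3
              have h4 := C_injective _ _ h3
              apply hj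
              ext
              rw [Units.val_one]; linarith
          · exact hX h2
        · have hsub : h.support ⊆ f'.support.erase 1 := by
            intro d hd
            rw [Finsupp.mem_support_iff, hhc] at hd
            rw [Finset.mem_erase, Finsupp.mem_support_iff]
            constructor
            · rintro rfl
              apply hd
              simp
            · intro h0
              apply hd
              rw [h0]; ring
          have h2 := Finset.card_le_card hsub
          rw [Finset.card_erase_of_mem (Finsupp.mem_support_iff.mpr h1), hsupp] at h2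
          omega
        · exact J.sub_mem (J.mul_mem_right _ _ hs'J) (J.mul_mem_left _ _ hs'J)
        · change (s' : E) * L (ι (X j)) - L (ι (X j)) * (s' : E) = nf h
          rw [hs'f, hg, L_mul_nf, sub_eq_iff_eq_add, ← nf_add, hh, sub_add_cancel]
      · push Not at hone
        have hsing : f' = Finsupp.single 1 (f' 1) := by
          ext d
          rw [Finsupp.single_apply]
          split_ifs with h2
          · rw [h2]
          · by_contra hne
            exact h2 (hone d (Finsupp.mem_support_iff.mpr hne)).symm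
        have hb : f' 1 ∈ B := by rw [hf'c]; exact hfB _
        refine ⟨f' 1, hb, h1, ?_⟩
        have : (⟨L (f' 1), L_mem_S hb⟩ : S) = s' := by
          apply Subtype.ext
          change L (f' 1) = (s' : E)
          rw [hs'f, hsing, nf_single, Y_one, mul_one, Finsupp.single_eq_same]
        rw [this]
        exact hs'J
  obtain ⟨s, hs, hs0⟩ : ∃ s ∈ J, s ≠ 0 := by
    by_contra hcon
    push Not at hcon
    apply hJ
    rw [eq_bot_iff]
    intro s hs
    rw [hcon s hs]
    exact TwoSidedIdeal.zero_mem _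
  obtain ⟨f, hfB, hsf⟩ := mem_S_iff.mp s.2
  refine key _ f hfB ?_ le_rfl s hs hsf
  rintro rfl
  apply hs0
  apply Subtype.ext
  rw [hsf, nf_zero]; rfl

/-- The polynomials whose multiplication operator lies in an ideal. -/
noncomputable def polyIdeal (J : TwoSidedIdeal S) : Ideal P where
  carrier := {p | (⟨L (ι p), L_mem_S (ι_mem_B p)⟩ : S) ∈ J}
  zero_mem' := by
    have : (⟨L (ι 0), L_mem_S (ι_mem_B 0)⟩ : S) = 0 := Subtype.ext (by
      change L (ι 0) = 0
      rw [map_zero, map_zero])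
    change (⟨L (ι 0), L_mem_S (ι_mem_B 0)⟩ : S) ∈ J
    rw [this]; exact J.zero_mem
  add_mem' := by
    intro p q hp hq
    have : (⟨L (ι (p + q)), L_mem_S (ι_mem_B (p + q))⟩ : S) =
        ⟨L (ι p), L_mem_S (ι_mem_B p)⟩ + ⟨L (ι q), L_mem_S (ι_mem_B q)⟩ := Subtype.ext (by
      change L (ι (p + q)) = L (ι p) + L (ι q)
      rw [map_add, map_add])
    change (⟨L (ι (p + q)), L_mem_S (ι_mem_B (p + q))⟩ : S) ∈ J
    rw [this]; exact J.add_mem hp hq
  smul_mem' := by
    intro a p hp
    have : (⟨L (ι (a • p)), L_mem_S (ι_mem_B (a • p))⟩ : S) =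
        ⟨L (ι a), L_mem_S (ι_mem_B a)⟩ * ⟨L (ι p), L_mem_S (ι_mem_B p)⟩ := Subtype.ext (by
      change L (ι (a • p)) = L (ι a) * L (ι p)
      rw [smul_eq_mul, map_mul, map_mul])
    change (⟨L (ι (a • p)), L_mem_S (ι_mem_B (a • p))⟩ : S) ∈ J
    rw [this]; exact J.mul_mem_left _ _ hp

lemma mem_polyIdeal {J : TwoSidedIdeal S} {p : P} :
    p ∈ polyIdeal J ↔ (⟨L (ι p), L_mem_S (ι_mem_B p)⟩ : S) ∈ J := Iff.rfl

/-- `S` is `G`-simple. -/
theorem S_Gsimple (J : TwoSidedIdeal S) (hJ : J ≠ ⊥) (hG : ∀ w : G, ∀ s ∈ J, w • s ∈ J) : J = ⊤ := by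
  have h1 : polyIdeal J ≠ ⊥ := by
    obtain ⟨b, hb, hb0, hbJ⟩ := exists_L_mem J hJ
    obtain ⟨p, q, hq, hpq⟩ := hb
    intro hbot
    have hp : p ∈ polyIdeal J := by
      rw [mem_polyIdeal]
      have : (⟨L (ι p), L_mem_S (ι_mem_B p)⟩ : S) = ⟨L b, L_mem_S ⟨p, q, hq, hpq⟩⟩ *
          ⟨L (ι q), L_mem_S (ι_mem_B q)⟩ := Subtype.ext (by
        change L (ι p) = L b * L (ι q)
        rw [← map_mul, hpq])
      rw [this]
      exact J.mul_mem_right _ _ hbJ
    rw [hbot, Ideal.mem_bot] at hp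
    rw [hp, map_zero] at hpq
    rcases mul_eq_zero.mp hpq with h | h
    · exact hb0 h
    · rw [ι_eq_zero] at h
      exact hq 0 (by rw [h, map_zero])
  obtain ⟨q, hqI, hq⟩ := exists_good (polyIdeal J) h1 (by
      intro c p hp
      rw [mem_polyIdeal] at hp ⊢
      have : (⟨L (ι (torHom c p)), L_mem_S (ι_mem_B _)⟩ : S) =
          ⟨Y c, Y_mem_S c⟩ * ⟨L (ι p), L_mem_S (ι_mem_B p)⟩ * ⟨Y c⁻¹, Y_mem_S c⁻¹⟩ := Subtype.ext (by
        change L (ι (torHom c p)) = Y c * L (ι p) * Y c⁻¹
        rw [Y_L, torK_ι, mul_assoc, ← Y_mul, mul_inv_cancel, Y_one, mul_one])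
      rw [this]
      exact J.mul_mem_right _ _ (J.mul_mem_left _ _ hp)) (by
      intro t p hp
      rw [mem_polyIdeal] at hp ⊢
      have : (⟨L (ι (shHom t p)), L_mem_S (ι_mem_B _)⟩ : S) =
          gSh (Multiplicative.ofAdd t) • (⟨L (ι p), L_mem_S (ι_mem_B p)⟩ : S) := Subtype.ext (by
        rw [smul_val]
        change L (ι (shHom t p)) = A (shK (Multiplicative.ofAdd t)) * L (ι p) *
          (((SU (Multiplicative.ofAdd t))⁻¹ : Eˣ) : E)
        rw [A_L, SU_inv_val, mul_assoc, ← map_mul, ← map_mul, mul_inv_cancel, map_one, map_one,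
          mul_one, shK_ι]
        rfl)
      rw [this]
      exact hG _ _ hp)
  rw [mem_polyIdeal] at hqI
  have hone : (1 : S) ∈ J := by
    have : (1 : S) = ⟨L (ι q)⁻¹, L_mem_S (inv_mem_B q hq)⟩ * ⟨L (ι q), L_mem_S (ι_mem_B q)⟩ :=
      Subtype.ext (by
        change 1 = L (ι q)⁻¹ * L (ι q)
        rw [← map_mul, inv_mul_cancel₀, map_one]
        rw [Ne, ι_eq_zero]
        rintro rfl
        exact hq 0 (map_zero _))
    rw [this]
    exact J.mul_mem_left _ _ hqI
  rw [eq_top_iff]
  intro s _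
  have := J.mul_mem_left s 1 hone
  rwa [mul_one] at this

/-- No nontrivial element of `G` is partially inner on `S`. -/
theorem no_partially_inner (w : G) (hw : w ≠ 1) (s : S) (h : ∀ s' : S, s' * s = s * (w • s')) :
    s = 0 := by
  classical
  obtain ⟨w, n, hn, t, rfl⟩ := w
  obtain ⟨f, hfB, hsf⟩ := mem_S_iff.mp s.2
  by_contra hs0
  have hf0 : f ≠ 0 := by
    rintro rfl
    apply hs0
    apply Subtype.ext
    rw [hsf, nf_zero]; rfl
  obtain ⟨c₀, hc₀⟩ : f.support.Nonempty := by
    rw [Finset.nonempty_iff_ne_empty]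
    rwa [Ne, Finsupp.support_eq_empty]
  have hX : ∀ i, ι (X i) ≠ 0 := fun i => by rw [Ne, ι_eq_zero]; exact X_ne_zero i
  -- commuting with the variables
  have hcomm : ∀ i c, f c ≠ 0 → (X i : P) = C (c (i + t.toAdd) : ℚ) * X (i + t.toAdd) := by
    intro i c hc
    have h1 := congrArg (fun x : S => (x : E)) (h ⟨L (ι (X i)), L_mem_S (ι_mem_B _)⟩)
    have h2 : L (ι (X i)) * (s : E) = (s : E) * L (ι (X (i + t.toAdd))) := by
      refine h1.trans ?_
      change (s : E) * (((LU (mon n) * SU t : Eˣ) : E) * L (ι (X i)) *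
        (((LU (mon n) * SU t)⁻¹ : Eˣ) : E)) = _
      rw [conj_L, shK_ι, shHom_X, mul_assoc, Units.mul_inv, mul_one]
    obtain ⟨g, hg, hgc⟩ := nf_mul_X f (i + t.toAdd)
    rw [hsf, L_mul_nf, hg] at h2
    have h3 := DFunLike.congr_fun (nf_injective h2) c
    rw [Finsupp.mapRange_apply, hgc] at h3
    apply ι_inj
    rw [map_mul]
    apply mul_left_cancel₀ hc
    linear_combination h3
  have ht : t = 1 := by
    have h1 := hcomm 0 c₀ (Finsupp.mem_support_iff.mp hc₀)
    have h2 := congrArg (coeff (Finsupp.single 0 1)) h1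
    rw [coeff_X, if_pos rfl, coeff_C_mul, coeff_X] at h2
    by_contra hne
    rw [if_neg, mul_zero] at h2
    · norm_num at h2
    · intro h3
      rw [Finsupp.single_left_inj one_ne_zero] at h3
      apply hne
      have : t.toAdd = 0 := by omega
      exact Multiplicative.toAdd.injective this
  subst ht
  have hone : ∀ c, f c ≠ 0 → c = 1 := by
    intro c hc
    funext i
    have h1 := hcomm i c hc
    rw [toAdd_one, add_zero] at h1
    have h2 := congrArg (coeff (Finsupp.single i 1)) h1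
    rw [coeff_X, if_pos rfl, coeff_C_mul, coeff_X, if_pos rfl, mul_one] at h2
    ext
    rw [← h2]; rfl
  have hsing : f = Finsupp.single 1 (f 1) := by
    ext d
    rw [Finsupp.single_apply]
    split_ifs with h2
    · rw [h2]
    · by_contra hne
      exact h2 (hone d hne).symm
  have hb0 : f 1 ≠ 0 := by
    intro h0
    apply hf0
    rw [hsing, h0, Finsupp.single_zero]
  have hsL : (s : E) = L (f 1) := by
    rw [hsf, hsing, nf_single, Y_one, mul_one, Finsupp.single_eq_same]
  -- commuting with the torus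
  have htor : ∀ c : T, torK c (f 1) = f 1 * (κ (chi n c)⁻¹ : Kˣ) := by
    intro c
    have h1 := congrArg (fun x : S => (x : E)) (h ⟨Y c, Y_mem_S c⟩)
    have h2 : Y c * (s : E) = (s : E) * (L (κ (chi n c)⁻¹ : Kˣ) * Y c) := by
      refine h1.trans ?_
      change (s : E) * (((LU (mon n) * SU 1 : Eˣ) : E) * Y c *
        (((LU (mon n) * SU 1)⁻¹ : Eˣ) : E)) = _
      rw [conj_Y, mul_assoc, Units.mul_inv, mul_one]
      simp
    rw [hsL, Y_L, ← mul_assoc, ← map_mul] at h2
    have h3 := DFunLike.congr_fun h2 1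
    change torK c (f 1) * torK c 1 = f 1 * (κ (chi n c)⁻¹ : Kˣ) * torK c 1 at h3
    rwa [map_one (torK c), mul_one, mul_one] at h3
  have hn0 : n ≠ 0 := by
    rintro rfl
    apply hw
    apply Subtype.ext
    change LU (mon 0) * SU 1 = 1
    rw [mon_zero, map_one, map_one, one_mul]
  obtain ⟨j, hj⟩ := exists_pos n hn hn0
  apply hb0
  obtain ⟨m, hm⟩ : ∃ m : ℕ, n j = m := ⟨(n j).toNat, by omega⟩
  refine no_neg_weight j m (by omega) (hfB 1) ?_
  rw [htor, chi_two, hm]
  have : ι (C (2 ^ m)) = (κ ((Units.mk0 2 (by norm_num)) ^ (m : ℤ)) : Kˣ) := by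
    change _ = ι (C (((Units.mk0 (2 : ℚ) (by norm_num)) ^ (m : ℤ) : ℚˣ) : ℚ))
    simp
  rw [this, mul_left_comm, ← Units.val_mul, ← map_mul, mul_inv_cancel, map_one κ, Units.val_one,
    mul_one]

end Pool.Agent.Q11.GS
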