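import Mathlib
import Pool.Agent.Q11.GS.Simple

/-!
# The skew group ring `R = S * G`
-/

set_option autoImplicit false

namespace Pool.Agent.Q11.GS

open SkewMonoidAlgebra

section general

variable {S G : Type*} [Ring S] [Group G] [MulSemiringAction G S]

/-- The homogeneous components of a skew group ring. -/
noncomputable def comp (g : G) : AddSubgroup (SkewMonoidAlgebra S G) := (singleAddHom (k := S) g).range

omit [Group G] [MulSemiringAction G S] in
lemma mem_comp {g : G} {r : SkewMonoidAlgebra S G} : r ∈ comp g ↔ ∃ s : S, single g s = r := Iff.rfl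

lemma coeff_of_mem_comp {g h : G} {r : SkewMonoidAlgebra S G} (hr : r ∈ comp g) (hgh : h ≠ g) :
    r.coeff h = 0 := by
  obtain ⟨s, rfl⟩ := mem_comp.mp hr
  classical
  rw [coeff_single_apply, if_neg (Ne.symm hgh)]

lemma comp_eq_of_coeff {g : G} {r r' : SkewMonoidAlgebra S G} (hr : r ∈ comp g) (hr' : r' ∈ comp g)
    (h : r.coeff g = r'.coeff g) : r = r' := by
  obtain ⟨s, rfl⟩ := mem_comp.mp hr
  obtain ⟨s', rfl⟩ := mem_comp.mp hr'
  classical
  rw [coeff_single_apply, if_pos rfl, coeff_single_apply, if_pos rfl] at h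
  rw [h]

lemma isInternal [DecidableEq G] : DirectSum.IsInternal (comp : G → AddSubgroup (SkewMonoidAlgebra S G)) := by
  have key : ∀ (x : DirectSum G fun g => comp (S := S) g) (h : G),
      (DirectSum.coeAddMonoidHom comp x).coeff h = (x h : SkewMonoidAlgebra S G).coeff h := by
    intro x h
    induction x using DirectSum.induction_on with
    | zero => simp
    | of g r =>
      rw [DirectSum.coeAddMonoidHom_of]
      by_cases hgh : g = h
      · subst hgh
        rw [DirectSum.of_eq_same]
      · rw [DirectSum.of_eq_of_ne _ _ _ (Ne.symm hgh)]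
        rw [coeff_of_mem_comp r.2 (Ne.symm hgh)]
        simp
    | add x y hx hy =>
      rw [map_add, coeff_add, Finsupp.add_apply, hx, hy, DirectSum.add_apply]
      simp
  constructor
  · rw [injective_iff_map_eq_zero]
    intro x hx
    refine DFinsupp.ext fun g => ?_
    have h1 := key x g
    rw [hx, coeff_zero, Finsupp.zero_apply] at h1
    have h2 : (x g : SkewMonoidAlgebra S G) = 0 :=
      comp_eq_of_coeff (x g).2 (comp g).zero_mem (by rw [← h1]; simp)
    exact Subtype.ext h2
  · intro r
    refine ⟨r.sum fun g s => DirectSum.of (fun g => comp (S := S) g) g ⟨single g s, s, rfl⟩, ?_⟩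
    rw [SkewMonoidAlgebra.map_sum]
    simp only [DirectSum.coeAddMonoidHom_of]
    exact sum_single r

lemma strong (g h : G) :
    AddSubgroup.closure {z : SkewMonoidAlgebra S G | ∃ a ∈ comp (S := S) g, ∃ b ∈ comp (S := S) h, z = a * b} =
      comp (g * h) := by
  apply le_antisymm
  · rw [AddSubgroup.closure_le]
    rintro _ ⟨_, ⟨s, rfl⟩, _, ⟨s', rfl⟩, rfl⟩
    refine ⟨s * g • s', ?_⟩
    rw [singleAddHom_apply, singleAddHom_apply, singleAddHom_apply, single_mul_single]
  · rintro _ ⟨s, rfl⟩
    apply AddSubgroup.subset_closure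
    refine ⟨single g s, ⟨s, rfl⟩, single h 1, ⟨1, rfl⟩, ?_⟩
    rw [single_mul_single, smul_one, mul_one, singleAddHom_apply]

/-- A graded ideal of the skew group ring of a `G`-simple ring is trivial. -/
lemma graded_simple (hS : ∀ J : TwoSidedIdeal S, J ≠ ⊥ → (∀ g : G, ∀ s ∈ J, g • s ∈ J) → J = ⊤)
    (I : TwoSidedIdeal (SkewMonoidAlgebra S G))
    (hI : ∀ r ∈ I, ∃ f : G →₀ SkewMonoidAlgebra S G,
      (∀ g, f g ∈ comp (S := S) g ∧ f g ∈ I) ∧ f.sum (fun _ x => x) = r) :
    I = ⊥ ∨ I = ⊤ := by
  rw [or_iff_not_imp_left]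
  intro hbot
  set J : TwoSidedIdeal S := I.comap (singleOneRingHom : S →+* SkewMonoidAlgebra S G) with hJ
  have hmem : ∀ s : S, s ∈ J ↔ single (1 : G) s ∈ I := by
    intro s
    rw [hJ, TwoSidedIdeal.mem_comap]
    rfl
  have hmem2 : ∀ (g : G) (s : S), single g s ∈ I ↔ s ∈ J := by
    intro g s
    rw [hmem]
    constructor
    · intro h
      have := I.mul_mem_right _ (single g⁻¹ 1) h
      rwa [single_mul_single, smul_one, mul_one, mul_inv_cancel] at this
    · intro h
      have := I.mul_mem_right _ (single g 1) h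
      rwa [single_mul_single, smul_one, mul_one, one_mul] at this
  have htop : J = ⊤ := by
    apply hS
    · intro hJbot
      apply hbot
      rw [eq_bot_iff]
      intro r hr
      obtain ⟨f, hf, hfr⟩ := hI r hr
      have h0 : ∀ g, f g = 0 := by
        intro g
        obtain ⟨s, hs⟩ := mem_comp.mp (hf g).1
        have h1 := (hf g).2
        rw [← hs, hmem2, hJbot] at h1
        have : s = 0 := by simpa using h1
        rw [← hs, this, single_zero]
      have : r = 0 := by
        rw [← hfr, Finsupp.sum]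
        exact Finset.sum_eq_zero fun g _ => h0 g
      rw [this]
      exact TwoSidedIdeal.zero_mem _
    · intro g s hs
      rw [hmem] at hs
      have h1 := I.mul_mem_left (single g 1) _ hs
      rw [single_mul_single, mul_one, one_mul, hmem2] at h1
      exact h1
  have hone : (1 : SkewMonoidAlgebra S G) ∈ I := by
    have : (1 : S) ∈ J := by rw [htop]; trivial
    rw [hmem] at this
    exact this
  rw [eq_top_iff]
  intro r _
  have := I.mul_mem_left r 1 hone
  rwa [mul_one] at this

/-- The centralizer of the base ring. -/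
lemma centralizer (hS : ∀ g : G, g ≠ 1 → ∀ s : S, (∀ s' : S, s' * s = s * (g • s')) → s = 0)
    (r : SkewMonoidAlgebra S G) (hr : ∀ a ∈ comp (S := S) (1 : G), a * r = r * a) :
    r ∈ comp (S := S) (1 : G) := by
  have h0 : ∀ g, g ≠ 1 → r.coeff g = 0 := by
    intro g hg
    apply hS g hg
    intro s'
    have h1 := hr (single 1 s') ⟨s', rfl⟩
    have h2 := congrArg (fun x : SkewMonoidAlgebra S G => x.coeff g) h1
    simpa using h2
  refine ⟨r.coeff 1, ?_⟩
  apply SkewMonoidAlgebra.ext
  intro g
  classical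
  rw [singleAddHom_apply, coeff_single_apply]
  split_ifs with h
  · rw [h]
  · exact (h0 g (Ne.symm h)).symm

end general

/-- The ring `R`. -/
abbrev R : Type := SkewMonoidAlgebra S G

/-- The representation of `R` by operators on the field. -/
noncomputable def π : R →+* E :=
  liftNCRingHom (k := S) (G := G) S.subtype ((Units.coeHom E).comp G.subtype) (by
    intro x y
    change ((y : Eˣ) : E) * (x : E) * (((y : Eˣ)⁻¹ : Eˣ) : E) * ((y : Eˣ) : E) = ((y : Eˣ) : E) * (x : E)
    rw [mul_assoc, Units.inv_mul, mul_one])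

lemma π_single (g : G) (s : S) : π (single g s) = (s : E) * ((g : Eˣ) : E) := by
  change liftNC _ _ (single g s) = _
  rw [liftNC_single]
  rfl

/-- The element `x₀/x₁` of `G`. -/
noncomputable def gm : G :=
  ⟨LU (mon (Finsupp.single 0 1 - Finsupp.single 1 1)), Finsupp.single 0 1 - Finsupp.single 1 1, by
    rw [map_sub, deg, Finsupp.liftAddHom_apply_single, Finsupp.liftAddHom_apply_single]; simp, 1, by
    rw [map_one, mul_one]⟩

lemma gm_ne : gm ≠ 1 := by
  intro h
  have h1 := congrArg (fun g : G => ((g : Eˣ) : E) 1) h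
  change L (mon (Finsupp.single 0 1 - Finsupp.single 1 1) : Kˣ) 1 = 1 at h1
  rw [L_apply, mul_one, sub_eq_add_neg, mon_add, mon_neg, mon_single, mon_single, zpow_one,
    zpow_one] at h1
  rw [Units.val_mul, ← Units.eq_mul_inv_iff_mul_eq, inv_inv, one_mul] at h1
  have h2 : ι (MvPolynomial.X 0) = ι (MvPolynomial.X 1) := h1
  have h3 := ι_inj h2
  have := MvPolynomial.X_injective h3
  norm_num at this

/-- The element of the kernel. -/
noncomputable def z : R :=
  single gm ⟨L (ι (MvPolynomial.X 1)), L_mem_S (ι_mem_B _)⟩ -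
    single 1 ⟨L (ι (MvPolynomial.X 0)), L_mem_S (ι_mem_B _)⟩

lemma z_ne : z ≠ 0 := by
  intro h
  have h1 := congrArg (fun r : R => r.coeff 1) h
  simp only [z, coeff_sub, Finsupp.sub_apply, coeff_zero, Finsupp.zero_apply] at h1
  classical
  rw [coeff_single_apply, if_neg gm_ne, coeff_single_apply, if_pos rfl, zero_sub, neg_eq_zero] at h1
  have h2 := congrArg (fun s : S => (s : E) 1) h1
  change ι (MvPolynomial.X 0) * 1 = 0 at h2
  rw [mul_one, ι_eq_zero] at h2
  exact MvPolynomial.X_ne_zero _ h2

lemma π_z : π z = 0 := by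
  rw [z, map_sub, π_single, π_single, sub_eq_zero]
  change L (ι (MvPolynomial.X 1)) * L (mon (Finsupp.single 0 1 - Finsupp.single 1 1) : Kˣ) =
    L (ι (MvPolynomial.X 0)) * 1
  rw [mul_one, ← map_mul]
  congr 1
  rw [sub_eq_add_neg, mon_add, mon_neg, mon_single, mon_single, zpow_one, zpow_one]
  change ((Xu 1 : Kˣ) : K) * ((Xu 0 * (Xu 1)⁻¹ : Kˣ) : K) = ((Xu 0 : Kˣ) : K)
  rw [← Units.val_mul, mul_comm (Xu 0), mul_inv_cancel_left]

/-- The kernel of the representation is a nontrivial ideal. -/
lemma exists_ideal : ∃ I : TwoSidedIdeal R, I ≠ ⊥ ∧ I ≠ ⊤ := by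
  refine ⟨TwoSidedIdeal.ker π, ?_, ?_⟩
  · intro h
    have : z ∈ TwoSidedIdeal.ker π := by rw [TwoSidedIdeal.mem_ker]; exact π_z
    rw [h] at this
    exact z_ne (by simpa using this)
  · intro h
    have : (1 : R) ∈ TwoSidedIdeal.ker π := by rw [h]; trivial
    rw [TwoSidedIdeal.mem_ker, map_one] at this
    have h1 := DFunLike.congr_fun this 1
    change (1 : K) = 0 at h1
    exact one_ne_zero h1

end Pool.Agent.Q11.GS
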